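import Pool.Agent.helper65.GD.SpecC

set_option autoImplicit false

namespace Pool.Agent.GD

open Finset Metric Filter Topology

theorem KEZ_mom (N : ℕ) (w : Fin N → ℝ) (x : Fin N → ℂ) (h : Atomic N w x) (m : ℕ) :
    ‖mom w x m‖ ≤ 1 := by
  unfold mom
  refine (norm_sum_le _ _).trans ?_
  rw [← h.2.1]
  apply le_of_eq
  apply Finset.sum_congr rfl
  intro l _
  rw [norm_mul, norm_pow, h.2.2 l, one_pow, mul_one, Complex.norm_real, Real.norm_eq_abs,
    abs_of_nonneg (h.1 l)]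

theorem KEZ_cs (N : ℕ) (w : Fin N → ℝ) (hw : ∀ l, 0 ≤ w l) (a b : Fin N → ℂ) :
    ‖∑ l, (w l : ℂ) * (a l * b l)‖ ≤
      Real.sqrt (∑ l, w l * ‖a l‖ ^ 2) * Real.sqrt (∑ l, w l * ‖b l‖ ^ 2) := by
  refine (norm_sum_le _ _).trans ?_
  have h1 := Real.sum_mul_le_sqrt_mul_sqrt univ (fun l => Real.sqrt (w l) * ‖a l‖)
    (fun l => Real.sqrt (w l) * ‖b l‖)
  have h2 : ∀ c : Fin N → ℂ, ∑ l, (Real.sqrt (w l) * ‖c l‖) ^ 2 = ∑ l, w l * ‖c l‖ ^ 2 := by
    intro c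
    apply Finset.sum_congr rfl
    intro l _
    rw [mul_pow, Real.sq_sqrt (hw l)]
  rw [h2, h2] at h1
  refine le_trans (le_of_eq ?_) h1
  apply Finset.sum_congr rfl
  intro l _
  rw [norm_mul, norm_mul, Complex.norm_real, Real.norm_eq_abs, abs_of_nonneg (hw l)]
  have h3 : w l = Real.sqrt (w l) * Real.sqrt (w l) := (Real.mul_self_sqrt (hw l)).symm
  calc w l * (‖a l‖ * ‖b l‖) = (Real.sqrt (w l) * Real.sqrt (w l)) * (‖a l‖ * ‖b l‖) := by rw [← h3]
    _ = _ := by ring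

theorem KEZ (hCOV : COV_stmt) (hVGB : VGB_stmt) (hVHB : VHB_stmt) (hOMG : OMG_stmt)
    (hSCA : SCA_stmt) : KEZ_stmt := by
  intro p k i N w v x G H hp hk hi hw hv hG hH
  obtain ⟨c1, c2⟩ := hCOV p k i N w x G H hp hk hi hw hG hH
  obtain ⟨g1, g2⟩ := hVGB p N w x G k hp hk hw hG
  obtain ⟨h1, h2⟩ := hVHB p N w x H i hp hi.le hw hH
  obtain ⟨o1, o2⟩ := hOMG p k i N v x (mom w x) G hp hk hi.le hv (KEZ_mom N w x hw) hG
  set S := Real.sqrt (∑ l, w l * ‖pol G k (x l) - ((p : ℂ) + k) / p * G k‖ ^ 2) with hS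
  set R := Real.sqrt (∑ l, w l * ‖pol H i (x l) - ((p : ℂ) - i) / p * H i‖ ^ 2) with hR
  have hS2 : S ^ 2 = ∑ l, w l * ‖pol G k (x l) - ((p : ℂ) + k) / p * G k‖ ^ 2 :=
    Real.sq_sqrt (Finset.sum_nonneg fun l _ => mul_nonneg (hw.1 l) (by positivity))
  have hR2 : R ^ 2 = ∑ l, w l * ‖pol H i (x l) - ((p : ℂ) - i) / p * H i‖ ^ 2 :=
    Real.sq_sqrt (Finset.sum_nonneg fun l _ => mul_nonneg (hw.1 l) (by positivity))
  obtain ⟨s1, s2⟩ := hSCA p k i ‖G k‖ ‖H i‖ (cc (2 * p) k) ((2 * p).choose i : ℝ) S R hp hk hi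
    (norm_nonneg _) g1 (norm_nonneg _) h1 (Real.sqrt_nonneg _) (Real.sqrt_nonneg _)
    (by rw [hS2]; exact g2) (by rw [hR2]; exact h2)
  set E : ℂ := ∑ l, (v l : ℂ) * pol G k (x l) with hE
  have hp0 : (p : ℂ) ≠ 0 := by exact_mod_cast (by omega : p ≠ 0)
  have hpk0 : (p : ℂ) + k ≠ 0 := by exact_mod_cast (by omega : p + k ≠ 0)
  have hpn : ‖(p : ℂ)‖ = p := by simp
  have hcs1 := KEZ_cs N w hw.1 (fun l => pol G k (x l) - ((p : ℂ) + k) / p * G k)
    (fun l => pol H i (x l) - ((p : ℂ) - i) / p * H i)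
  have hcs2 := KEZ_cs N w hw.1 (fun l => pol G k (x l) - ((p : ℂ) + k) / p * G k)
    (fun l => (starRingEnd ℂ) (pol H i (x l) - ((p : ℂ) - i) / p * H i))
  simp only [RCLike.norm_conj] at hcs2
  set Cov1 := ∑ l, (w l : ℂ) * ((pol G k (x l) - ((p : ℂ) + k) / p * G k) *
    (pol H i (x l) - ((p : ℂ) - i) / p * H i)) with hCov1
  set Cov2 := ∑ l, (w l : ℂ) * ((pol G k (x l) - ((p : ℂ) + k) / p * G k) *
    (starRingEnd ℂ) (pol H i (x l) - ((p : ℂ) - i) / p * H i)) with hCov2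
  constructor
  · have e1 : 2 * ((k : ℂ) + i) * (al p k i G H + om p k G E * H i) =
        p * Cov1 + (((k : ℂ) + i) * E - (p - (p + k) * (p - i) / p) * G k) * H i := by
      have e2 : 2 * ((k : ℂ) + i) * (al p k i G H + om p k G E * H i) =
          2 * (k + i) * al p k i G H + ((k : ℂ) + i) * (E - (p : ℂ) / (p + k) * G k) * H i := by
        unfold om; ring
      rw [e2, c1]
      field_simp
      ring
    rw [e1]
    refine (norm_add_le _ _).trans ?_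
    rw [norm_mul, norm_mul, hpn]
    have e3 : (p : ℝ) * ‖Cov1‖ ≤ p * (S * R) := mul_le_mul_of_nonneg_left hcs1 (by positivity)
    have e4 := mul_le_mul_of_nonneg_right o1 (norm_nonneg (H i))
    refine le_trans ?_ s1
    linarith
  · have e1 : 2 * (2 * (p : ℂ) + k - i) *
        (be p k i G H - om p k G E * (starRingEnd ℂ) (H i)) =
        p * Cov2 - ((2 * (p : ℂ) + k - i) * E - (p + (p + k) * (p - i) / p) * G k) *
          (starRingEnd ℂ) (H i) := by
      have e2 : 2 * (2 * (p : ℂ) + k - i) *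
          (be p k i G H - om p k G E * (starRingEnd ℂ) (H i)) =
          2 * (2 * p + k - i) * be p k i G H -
            (2 * (p : ℂ) + k - i) * (E - (p : ℂ) / (p + k) * G k) * (starRingEnd ℂ) (H i) := by
        unfold om; ring
      rw [e2, c2]
      field_simp
      ring
    rw [e1]
    refine (norm_sub_le _ _).trans ?_
    rw [norm_mul, norm_mul, hpn, RCLike.norm_conj]
    have e3 : (p : ℝ) * ‖Cov2‖ ≤ p * (S * R) := mul_le_mul_of_nonneg_left hcs2 (by positivity)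
    have e4 := mul_le_mul_of_nonneg_right o2 (norm_nonneg (H i))
    refine le_trans ?_ s2
    linarith

end Pool.Agent.GD
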